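import Mathlib

/-!
A growth argument: a bijection `ℤ → ℤ²` cannot carry a nontrivial decaying translation invariant
kernel on `ℤ` to a translation invariant kernel on `ℤ²`.
-/

namespace Pool.Agent.MP_6c6e33_an

theorem no_lipschitz (ψ : ℤ × ℤ → ℤ) (hψ : Function.Injective ψ) (l0 l1 : ℤ × ℤ)
    (hdet : l0.1 * l1.2 - l0.2 * l1.1 ≠ 0) (M : ℕ)
    (h0 : ∀ l, |ψ (l + l0) - ψ l| ≤ M) (h1 : ∀ l, |ψ (l + l1) - ψ l| ≤ M) : False := by
  have hA : ∀ u : ℕ, |ψ ((u : ℤ) • l0) - ψ 0| ≤ M * u := by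
    intro u
    induction u with
    | zero => simp
    | succ u ih =>
      have e : ((u + 1 : ℕ) : ℤ) • l0 = (u : ℤ) • l0 + l0 := by
        push_cast; rw [add_smul, one_smul]
      rw [e]
      have := h0 ((u : ℤ) • l0)
      rw [abs_le] at *
      push_cast
      constructor <;> nlinarith [this.1, this.2, ih.1, ih.2]
  have hB : ∀ u v : ℕ, |ψ ((u : ℤ) • l0 + (v : ℤ) • l1) - ψ 0| ≤ M * u + M * v := by
    intro u v
    induction v with
    | zero => simpa using hA u
    | succ v ih =>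
      have e : (u : ℤ) • l0 + ((v + 1 : ℕ) : ℤ) • l1 = ((u : ℤ) • l0 + (v : ℤ) • l1) + l1 := by
        push_cast; rw [add_smul, one_smul, add_assoc]
      rw [e]
      have := h1 ((u : ℤ) • l0 + (v : ℤ) • l1)
      rw [abs_le] at *
      push_cast
      constructor <;> nlinarith [this.1, this.2, ih.1, ih.2]
  set r : ℕ := 4 * M + 2 with hr
  let G : ℕ × ℕ → ℤ := fun p => ψ ((p.1 : ℤ) • l0 + (p.2 : ℤ) • l1)
  have hGinj : Function.Injective G := by
    rintro ⟨u, v⟩ ⟨u', v'⟩ huv
    have h := hψ huv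
    have e1 := congrArg Prod.fst h
    have e2 := congrArg Prod.snd h
    simp only [Prod.fst_add, Prod.snd_add, Prod.smul_fst, Prod.smul_snd, smul_eq_mul] at e1 e2
    have hu : ((u : ℤ) - u') * (l0.1 * l1.2 - l0.2 * l1.1) = 0 := by
      linear_combination l1.2 * e1 - l1.1 * e2
    have hv : ((v : ℤ) - v') * (l0.1 * l1.2 - l0.2 * l1.1) = 0 := by
      linear_combination l0.1 * e2 - l0.2 * e1
    rcases mul_eq_zero.1 hu with hu | hu
    · rcases mul_eq_zero.1 hv with hv | hv
      · have : u = u' := by omega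
        have : v = v' := by omega
        subst_vars; rfl
      · exact absurd hv hdet
    · exact absurd hu hdet
  have hmaps : Set.MapsTo G ((Finset.range r ×ˢ Finset.range r : Finset (ℕ × ℕ)) : Set (ℕ × ℕ))
      (Finset.Icc (ψ 0 - 2 * M * r) (ψ 0 + 2 * M * r) : Finset ℤ) := by
    rintro ⟨u, v⟩ huv
    simp only [Finset.coe_product, Finset.coe_range, Set.mem_prod, Set.mem_Iio] at huv
    have := hB u v
    have hu : (u : ℤ) ≤ r := by exact_mod_cast huv.1.le
    have hv : (v : ℤ) ≤ r := by exact_mod_cast huv.2.le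
    have hM : (0 : ℤ) ≤ M := by positivity
    rw [abs_le] at this
    simp only [Finset.coe_Icc, Set.mem_Icc, G]
    constructor <;> nlinarith [this.1, this.2, mul_le_mul_of_nonneg_left hu hM,
      mul_le_mul_of_nonneg_left hv hM]
  have hcard := Finset.card_le_card_of_injOn G hmaps hGinj.injOn
  rw [Finset.card_product, Finset.card_range, Int.card_Icc] at hcard
  have e : (ψ 0 + 2 * M * r + 1 - (ψ 0 - 2 * M * r)) = ((4 * M * r + 1 : ℕ) : ℤ) := by
    push_cast; ring
  rw [e, Int.toNat_natCast] at hcard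
  rw [hr] at hcard
  nlinarith

theorem growth (σ : ℤ ≃ ℤ × ℤ) (h : ℤ → ℝ) (F : ℤ × ℤ → ℝ)
    (hF : ∀ j k, h (j - k) = F (σ j - σ k)) (hnonneg : ∀ j, 0 ≤ h j)
    (hfin : ∀ t > 0, {j | t ≤ h j}.Finite) (d : ℤ) (hd : d ≠ 0) : h d = 0 := by
  by_contra hne
  have hpos : 0 < h d := lt_of_le_of_ne (hnonneg d) (Ne.symm hne)
  set l0 := σ d - σ 0 with hl0
  have hl0ne : l0 ≠ 0 := by
    intro h0
    exact hd (σ.injective (sub_eq_zero.1 h0))
  have hFl0 : F l0 = h d := by rw [hl0, ← hF, sub_zero]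
  by_cases hcase : ∃ l1, 0 < F l1 ∧ l0.1 * l1.2 - l0.2 * l1.1 ≠ 0
  · obtain ⟨l1, hl1, hdet⟩ := hcase
    have ht : 0 < min (F l0) (F l1) := lt_min (hFl0 ▸ hpos) hl1
    obtain ⟨M, hM⟩ : ∃ M : ℕ, ∀ j, min (F l0) (F l1) ≤ h j → |j| ≤ M := by
      obtain ⟨M, hM⟩ := ((hfin _ ht).image (fun j => j.natAbs)).bddAbove
      refine ⟨M, fun j hj => ?_⟩
      have : j.natAbs ≤ M := hM ⟨j, hj, rfl⟩
      rw [← Int.natCast_natAbs]
      exact_mod_cast this
    refine no_lipschitz σ.symm σ.symm.injective l0 l1 hdet M (fun l => hM _ ?_) (fun l => hM _ ?_)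
    · rw [hF]; simp
    · rw [hF]; simp
  · push Not at hcase
    let p : ℤ → ℤ := fun j => l0.1 * (σ j).2 - l0.2 * (σ j).1
    have hper : Function.Periodic p d := by
      intro j
      have h1 : 0 < F (σ (j + d) - σ j) := by
        rw [← hF]; simpa using hpos
      have := hcase _ h1
      simp only [Prod.fst_sub, Prod.snd_sub] at this
      simp only [p]
      linear_combination this
    have hfinr : (Set.range p).Finite := by
      refine ((Set.finite_Ico 0 |d|).image p).subset ?_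
      rintro _ ⟨j, rfl⟩
      refine ⟨j % d, ⟨Int.emod_nonneg j hd, Int.emod_lt_abs j hd⟩, ?_⟩
      have := hper.sub_int_mul_eq (x := j) (j / d)
      rw [← this]
      congr 1
      rw [Int.emod_def]; push_cast; ring
    have hN : 0 < l0.1 ^ 2 + l0.2 ^ 2 := by
      by_contra hcon
      have h1 : l0.1 = 0 := by nlinarith [sq_nonneg l0.1, sq_nonneg l0.2]
      have h2 : l0.2 = 0 := by nlinarith [sq_nonneg l0.1, sq_nonneg l0.2]
      exact hl0ne (Prod.ext h1 h2)
    have hinf : (Set.range p).Infinite := by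
      refine Set.infinite_of_injective_forall_mem
        (f := fun n : ℤ => n * (l0.1 ^ 2 + l0.2 ^ 2)) ?_ ?_
      · intro n m hnm
        exact mul_right_cancel₀ hN.ne' hnm
      · intro n
        refine ⟨σ.symm (-n * l0.2, n * l0.1), ?_⟩
        simp only [p, Equiv.apply_symm_apply]
        ring
    exact hinf hfinr

end Pool.Agent.MP_6c6e33_an
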