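import Pool.Agent.MP_6c6e33_an.Parseval
import Pool.Agent.MP_6c6e33_an.Growth

/-!
The Hilbert space part of the argument.
-/

open scoped InnerProductSpace

noncomputable section

namespace Pool.Agent.MP_6c6e33_an

variable {ι H : Type} [NormedAddCommGroup H] [InnerProductSpace ℂ H]

theorem IsParseval.reindex {κ : Type} {u : ι → H} (hu : IsParseval u) (σ : κ ≃ ι) :
    IsParseval (fun k => u (σ k)) := fun x =>
  (σ.hasSum_iff (f := fun k => ‖⟪x, u k⟫_ℂ‖ ^ 2)).2 (hu x)

theorem IsParseval.dense_span [CompleteSpace H] {u : ι → H} (hu : IsParseval u) :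
    (Submodule.span ℂ (Set.range u))ᗮ = ⊥ := by
  rw [Submodule.eq_bot_iff]
  intro x hx
  have h0 : ∀ k, ⟪x, u k⟫_ℂ = 0 := fun k =>
    Submodule.inner_left_of_mem_orthogonal (Submodule.subset_span (Set.mem_range_self k)) hx
  have := hu x
  simp only [h0, norm_zero, ne_eq, OfNat.ofNat_ne_zero, not_false_eq_true, zero_pow] at this
  have h1 := this.unique hasSum_zero
  simpa using h1

theorem IsParseval.norm_adjoint [CompleteSpace H] {u : ι → H} (hu : IsParseval u)
    (W : H →L[ℂ] H) (τ : ι ≃ ι) (c : ι → ℂ) (hc : ∀ i, ‖c i‖ = 1)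
    (hW : ∀ i, W (u i) = c i • u (τ i)) (x : H) :
    ‖ContinuousLinearMap.adjoint W x‖ = ‖x‖ := by
  have h1 := hu (ContinuousLinearMap.adjoint W x)
  simp only [ContinuousLinearMap.adjoint_inner_left, hW, inner_smul_right, norm_mul, hc,
    one_mul] at h1
  have h2 := h1.unique (hu.reindex τ x)
  exact (pow_left_inj₀ (norm_nonneg _) (norm_nonneg _) two_ne_zero).1 h2

theorem IsParseval.norm_inner_cov [CompleteSpace H] {u : ι → H} (hu : IsParseval u)
    (W : H →L[ℂ] H) (hinj : Function.Injective W) (τ : ι ≃ ι) (c : ι → ℂ) (hc : ∀ i, ‖c i‖ = 1)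
    (hW : ∀ i, W (u i) = c i • u (τ i)) (i j : ι) :
    ‖⟪u (τ i), u (τ j)⟫_ℂ‖ = ‖⟪u i, u j⟫_ℂ‖ := by
  have h1 := (ContinuousLinearMap.norm_map_iff_adjoint_comp_self
    (ContinuousLinearMap.adjoint W)).1 (hu.norm_adjoint W τ c hc hW)
  rw [ContinuousLinearMap.adjoint_adjoint] at h1
  have h2 : ∀ y, W (ContinuousLinearMap.adjoint W y) = y := fun y => by
    simpa using congrArg (fun L : H →L[ℂ] H => L y) h1
  have h3 : ∀ y, ContinuousLinearMap.adjoint W (W y) = y := fun y => hinj (h2 (W y))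
  have h4 : ⟪W (u i), W (u j)⟫_ℂ = ⟪u i, u j⟫_ℂ := by
    rw [← ContinuousLinearMap.adjoint_inner_right, h3]
  rw [← h4, hW, hW, inner_smul_left, inner_smul_right, norm_mul, norm_mul]
  simp [hc]

theorem IsParseval.shift_int [CompleteSpace H] {u : ℤ → H} (hu : IsParseval u)
    (hn : ∀ i j, ‖u i‖ = ‖u j‖) (T : H →L[ℂ] H) (hT : ∀ k, T (u k) = u (k + 1)) (j k : ℤ) :
    ⟪u (j + 1), u (k + 1)⟫_ℂ = ⟪u j, u k⟫_ℂ := by
  have h1 := hu.norm_adjoint T (Equiv.addRight 1) (fun _ => 1) (by simp) (by simpa using hT)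
  have h2 : ContinuousLinearMap.adjoint T (u (k + 1)) = u k := by
    have h3 : ‖u k - ContinuousLinearMap.adjoint T (u (k + 1))‖ ^ 2 = 0 := by
      rw [@norm_sub_sq ℂ, h1, ContinuousLinearMap.adjoint_inner_right, hT,
        inner_self_eq_norm_sq, hn k (k + 1)]
      ring
    have h4 : u k - ContinuousLinearMap.adjoint T (u (k + 1)) = 0 := by simpa using h3
    exact (sub_eq_zero.1 h4).symm
  rw [← hT j, ← ContinuousLinearMap.adjoint_inner_right, h2]

theorem IsParseval.shift_nat [CompleteSpace H] {u : ℕ → H} (hu : IsParseval u)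
    (hn : ∀ i j, ‖u i‖ = ‖u j‖) (T : H →L[ℂ] H) (hT : ∀ k, T (u k) = u (k + 1)) (k : ℕ) :
    ⟪u (k + 1), u 0⟫_ℂ = 0 := by
  have h1 : ∀ x, ‖ContinuousLinearMap.adjoint T x‖ ^ 2 + ‖⟪x, u 0⟫_ℂ‖ ^ 2 = ‖x‖ ^ 2 := by
    intro x
    have h2 := hu (ContinuousLinearMap.adjoint T x)
    simp only [ContinuousLinearMap.adjoint_inner_left, hT] at h2
    have h3 := (hasSum_nat_add_iff (f := fun k => ‖⟪x, u k⟫_ℂ‖ ^ 2) 1).1 h2
    have h4 := h3.unique (hu x)
    simpa using h4
  have h3 : 0 ≤ ‖u k - ContinuousLinearMap.adjoint T (u (k + 1))‖ ^ 2 := by positivity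
  rw [@norm_sub_sq ℂ, ContinuousLinearMap.adjoint_inner_right, hT,
    inner_self_eq_norm_sq, hn k (k + 1)] at h3
  have h4 := h1 (u (k + 1))
  have h5 : ‖⟪u (k + 1), u 0⟫_ℂ‖ ^ 2 = 0 := le_antisymm (by linarith) (by positivity)
  simpa using h5

theorem IsParseval.exists_hilbertBasis [CompleteSpace H] [Nontrivial H] {u : ι → H}
    (hu : IsParseval u) (hn : ∀ i j, ‖u i‖ = ‖u j‖)
    (ho : ∀ i j, i ≠ j → ⟪u i, u j⟫_ℂ = 0) : ∃ e : HilbertBasis ι ℂ H, ⇑e = u := by
  classical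
  have hone : ∀ i, ‖u i‖ = 1 := by
    intro i
    have h1 : HasSum (fun k => ‖⟪u i, u k⟫_ℂ‖ ^ 2) (‖⟪u i, u i⟫_ℂ‖ ^ 2) :=
      hasSum_single i (fun k hk => by simp [ho i k (Ne.symm hk)])
    have h2 := h1.unique (hu (u i))
    rw [inner_self_eq_norm_sq_to_K] at h2
    simp only [norm_pow, RCLike.norm_ofReal, abs_norm] at h2
    have hne : ‖u i‖ ≠ 0 := by
      intro h0
      have hz : ∀ k, u k = 0 := fun k => norm_eq_zero.1 ((hn k i).trans h0)
      obtain ⟨x, hx⟩ := exists_ne (0 : H)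
      have h3 := hu x
      simp only [hz, inner_zero_right, norm_zero, ne_eq, OfNat.ofNat_ne_zero, not_false_eq_true,
        zero_pow] at h3
      have h4 := h3.unique hasSum_zero
      exact hx (by simpa using h4)
    have h3 : ‖u i‖ ^ 2 * (‖u i‖ ^ 2 - 1) = 0 := by linarith
    rcases mul_eq_zero.1 h3 with h | h
    · exact absurd (pow_eq_zero_iff two_ne_zero |>.1 h) hne
    · have h5 : ‖u i‖ ^ 2 = 1 ^ 2 := by linarith
      exact (pow_left_inj₀ (norm_nonneg _) zero_le_one two_ne_zero).1 h5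
  have hon : Orthonormal ℂ u := ⟨hone, fun i j hij => ho i j hij⟩
  exact ⟨HilbertBasis.mkOfOrthogonalEqBot hon hu.dense_span,
    HilbertBasis.coe_mkOfOrthogonalEqBot _ _⟩

theorem exists_extension [CompleteSpace H] {I : Type} [Add I] [One I] (f : I → H)
    (hd : (Submodule.span ℂ (Set.range f))ᗮ = ⊥) (hT : HasBoundedRepresentation f) :
    ∃ T : H →L[ℂ] H, ∀ k, T (f k) = f (k + 1) := by
  obtain ⟨T, hT⟩ := hT
  have hdense : DenseRange (Submodule.span ℂ (Set.range f)).subtypeL := by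
    have h1 : (Submodule.span ℂ (Set.range f)).topologicalClosure = ⊤ :=
      Submodule.topologicalClosure_eq_top_iff.2 hd
    have h2 : Dense ((Submodule.span ℂ (Set.range f) : Submodule ℂ H) : Set H) :=
      Submodule.dense_iff_topologicalClosure_eq_top.2 h1
    simpa [DenseRange] using h2
  refine ⟨T.extend (Submodule.span ℂ (Set.range f)).subtypeL, fun k => ?_⟩
  have := T.extend_eq hdense isUniformEmbedding_subtype_val.isUniformInducing
    ⟨f k, Submodule.subset_span (Set.mem_range_self k)⟩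
  rw [hT k] at this
  exact this

theorem abstract_main [CompleteSpace H] [Nontrivial H] (f : ℤ × ℤ → H) (hf : IsFrame f)
    (V : ℤ × ℤ → H →L[ℂ] H) (hVinj : ∀ ν, Function.Injective (V ν))
    (c : ℤ × ℤ → ℤ × ℤ → ℂ) (hc : ∀ ν l, ‖c ν l‖ = 1)
    (hV : ∀ ν l, V ν (f l) = c ν l • f (l + ν)) :
    (∀ σ : ℕ ≃ ℤ × ℤ, HasBoundedRepresentation (f ∘ σ) → IsRieszBasis f) ∧
    (∀ σ : ℤ ≃ ℤ × ℤ, HasBoundedRepresentation (f ∘ σ) → IsRieszBasis f) := by
  obtain ⟨R, hu⟩ := exists_parseval f hf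
  set u : ℤ × ℤ → H := fun k => R.symm (f k) with hudef
  have hfu : ∀ k, f k = R (u k) := fun k => by simp [hudef]
  -- covariance of the Gram matrix
  have hcov : ∀ ν i j, ‖⟪u (i + ν), u (j + ν)⟫_ℂ‖ = ‖⟪u i, u j⟫_ℂ‖ := by
    intro ν i j
    refine hu.norm_inner_cov ((R.symm : H →L[ℂ] H) ∘L V ν ∘L (R : H →L[ℂ] H)) ?_
      (Equiv.addRight ν) (c ν) (hc ν) ?_ i j
    · exact R.symm.injective.comp ((hVinj ν).comp R.injective)
    · intro l
      simp [hudef, hV]
  have hn : ∀ i j, ‖u i‖ = ‖u j‖ := by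
    intro i j
    have := hcov (i - j) j j
    rw [add_sub_cancel, inner_self_eq_norm_sq_to_K, inner_self_eq_norm_sq_to_K] at this
    simp only [norm_pow, RCLike.norm_ofReal, abs_norm] at this
    exact (pow_left_inj₀ (norm_nonneg _) (norm_nonneg _) two_ne_zero).1 this
  have hconcl : (∀ i j, i ≠ j → ⟪u i, u j⟫_ℂ = 0) → IsRieszBasis f := by
    intro ho
    obtain ⟨e, he⟩ := hu.exists_hilbertBasis hn ho
    exact ⟨e, R, fun k => by rw [he, hfu]⟩
  -- transport of a bounded representation to the Parseval frame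
  have htrans : ∀ {I : Type} [Add I] [One I] (σ : I ≃ ℤ × ℤ), HasBoundedRepresentation (f ∘ σ) →
      ∃ T : H →L[ℂ] H, ∀ k, T (u (σ k)) = u (σ (k + 1)) := by
    intro I _ _ σ hrep
    have hd : (Submodule.span ℂ (Set.range (f ∘ σ)))ᗮ = ⊥ := by
      obtain ⟨A, B, hA, hB, hAB⟩ := hf
      rw [Submodule.eq_bot_iff]
      intro x hx
      have h0 : ∀ k, ⟪x, f k⟫_ℂ = 0 := fun k =>
        Submodule.inner_left_of_mem_orthogonal
          (Submodule.subset_span (Set.mem_range.2 ⟨σ.symm k, by simp⟩)) hx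
      have h1 := (hAB x).2.1
      simp only [h0, norm_zero, ne_eq, OfNat.ofNat_ne_zero, not_false_eq_true, zero_pow,
        tsum_zero] at h1
      have h2 : ‖x‖ ^ 2 ≤ 0 := by
        by_contra hcon
        push Not at hcon
        nlinarith [mul_pos hA hcon]
      have h3 : ‖x‖ ^ 2 = 0 := le_antisymm h2 (by positivity)
      simpa using h3
    obtain ⟨T, hT⟩ := exists_extension (f ∘ σ) hd hrep
    refine ⟨(R.symm : H →L[ℂ] H) ∘L T ∘L (R : H →L[ℂ] H), fun k => ?_⟩
    have := hT k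
    simp only [Function.comp] at this
    simp [hudef, this]
  constructor
  · intro σ hrep
    obtain ⟨T, hT⟩ := htrans σ hrep
    apply hconcl
    intro i j hij
    have h1 := (hu.reindex σ).shift_nat (fun i j => hn _ _) T hT
    have h2 := hcov (σ 0 - j) i j
    rw [add_sub_cancel] at h2
    obtain ⟨m, hm⟩ := σ.surjective (i + (σ 0 - j))
    have hm0 : m ≠ 0 := by
      rintro rfl
      apply hij
      have : i - j = 0 := by
        have h5 : σ 0 + (i - j) = σ 0 := by rw [hm]; rw [← hm]; nth_rewrite 2 [hm]; abel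
        simpa using h5
      exact sub_eq_zero.1 this
    obtain ⟨k, rfl⟩ := Nat.exists_eq_succ_of_ne_zero hm0
    rw [← hm, h1 k] at h2
    exact norm_eq_zero.1 (by simpa using h2.symm)
  · intro σ hrep
    obtain ⟨T, hT⟩ := htrans σ hrep
    apply hconcl
    have h1 := (hu.reindex σ).shift_int (fun i j => hn _ _) T hT
    have h2 : ∀ (n j k : ℤ), ⟪u (σ (j + n)), u (σ (k + n))⟫_ℂ = ⟪u (σ j), u (σ k)⟫_ℂ := by
      intro n
      induction n using Int.induction_on with
      | zero => simp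
      | succ n ih =>
        intro j k
        rw [← add_assoc, ← add_assoc, h1, ih]
      | pred n ih =>
        intro j k
        rw [← h1, ← ih j k]
        congr 3 <;> ring
    let h : ℤ → ℝ := fun j => ‖⟪u (σ j), u (σ 0)⟫_ℂ‖
    let F : ℤ × ℤ → ℝ := fun l => ‖⟪u l, u 0⟫_ℂ‖
    have hF : ∀ j k, h (j - k) = F (σ j - σ k) := by
      intro j k
      simp only [h, F]
      rw [← h2 k (j - k) 0, ← hcov (σ k) (σ j - σ k) 0]
      simp
    have hfin : ∀ t > 0, {j | t ≤ h j}.Finite := by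
      intro t ht
      have hs := ((hu.reindex σ) (u (σ 0))).summable
      have h3 := hs.tendsto_cofinite_zero
      have h4 : ∀ᶠ j in Filter.cofinite, ‖⟪u (σ 0), u (σ j)⟫_ℂ‖ ^ 2 < t ^ 2 :=
        h3.eventually (gt_mem_nhds (by positivity))
      rw [Filter.eventually_cofinite] at h4
      refine h4.subset fun j hj => ?_
      simp only [Set.mem_ofPred_eq, not_lt, h] at hj ⊢
      rw [norm_inner_symm]
      exact pow_le_pow_left₀ ht.le hj 2
    have hzero := growth σ h F hF (fun j => norm_nonneg _) hfin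
    intro i j hij
    obtain ⟨p, rfl⟩ := σ.surjective i
    obtain ⟨q, rfl⟩ := σ.surjective j
    have hpq : p - q ≠ 0 := fun h0 => hij (by rw [sub_eq_zero.1 h0])
    have h5 := hzero _ hpq
    simp only [h] at h5
    rw [← h2 q (p - q) 0] at h5
    simpa using h5

end Pool.Agent.MP_6c6e33_an
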