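import Mathlib

/-!
Definitions for Gabor systems, frames, Riesz bases and bounded orbit representations.
-/

open MeasureTheory

noncomputable section

namespace Pool.Agent.MP_6c6e33_an

/-- The Hilbert space `L²(ℝ)` of complex-valued square integrable functions. -/
abbrev L2 : Type := Lp ℂ 2 (volume : Measure ℝ)

theorem memLp_translation (a : ℝ) (f : L2) :
    MemLp (fun x : ℝ => f (x - a)) 2 (volume : Measure ℝ) :=
  (Lp.memLp f).comp_measurePreserving (measurePreserving_sub_right volume a)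

theorem memLp_modulation (b : ℝ) (f : L2) :
    MemLp (fun x : ℝ => Complex.exp (2 * Real.pi * Complex.I * b * x) * f x) 2
      (volume : Measure ℝ) := by
  refine (Lp.memLp f).of_le ?_ (Filter.Eventually.of_forall fun x => ?_)
  · exact (Continuous.aestronglyMeasurable (by fun_prop)).mul (Lp.aestronglyMeasurable f)
  · have h : (2 * Real.pi * Complex.I * b * x : ℂ) = ((2 * Real.pi * b * x : ℝ) : ℂ) * Complex.I := by
      push_cast; ring
    rw [norm_mul, h, Complex.norm_exp_ofReal_mul_I, one_mul]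

/-- Translation `T_a f (x) = f (x - a)`. -/
def translation (a : ℝ) (f : L2) : L2 :=
  MemLp.toLp (fun x : ℝ => f (x - a)) (memLp_translation a f)

/-- Modulation `E_b f (x) = e^{2 π i b x} f (x)`. -/
def modulation (b : ℝ) (f : L2) : L2 :=
  MemLp.toLp (fun x : ℝ => Complex.exp (2 * Real.pi * Complex.I * b * x) * f x)
    (memLp_modulation b f)

/-- The Gabor system `(m, n) ↦ E_{mb} T_{na} g`. -/
def gabor (a b : ℝ) (g : L2) (p : ℤ × ℤ) : L2 :=
  modulation (p.1 * b) (translation (p.2 * a) g)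

/-- `f` is a frame: `A ‖x‖² ≤ ∑ |⟨x, f k⟩|² ≤ B ‖x‖²` for all `x`, with `A, B > 0`. -/
def IsFrame {ι H : Type} [NormedAddCommGroup H] [InnerProductSpace ℂ H] (f : ι → H) : Prop :=
  ∃ A B : ℝ, 0 < A ∧ 0 < B ∧ ∀ x : H,
    Summable (fun k => ‖inner ℂ x (f k)‖ ^ 2) ∧
    A * ‖x‖ ^ 2 ≤ ∑' k, ‖inner ℂ x (f k)‖ ^ 2 ∧
    ∑' k, ‖inner ℂ x (f k)‖ ^ 2 ≤ B * ‖x‖ ^ 2

/-- `f` is a Riesz basis: the image of an orthonormal basis under a bounded bijective operator. -/
def IsRieszBasis {ι H : Type} [NormedAddCommGroup H] [InnerProductSpace ℂ H] (f : ι → H) : Prop :=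
  ∃ (e : HilbertBasis ι ℂ H) (U : H ≃L[ℂ] H), ∀ k, f k = U (e k)

/-- There is a bounded linear operator `T : span {f k} → H` with `T (f k) = f (k + 1)`. -/
def HasBoundedRepresentation {I H : Type} [Add I] [One I] [NormedAddCommGroup H]
    [InnerProductSpace ℂ H] (f : I → H) : Prop :=
  ∃ T : Submodule.span ℂ (Set.range f) →L[ℂ] H,
    ∀ k : I, T ⟨f k, Submodule.subset_span (Set.mem_range_self k)⟩ = f (k + 1)

end Pool.Agent.MP_6c6e33_an
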