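import Pool.Agent.MP_6c6e33_an.Abstract

/-!
Time-frequency shifts on `L²(ℝ)` and the covariance of Gabor systems.
-/

open MeasureTheory

noncomputable section

namespace Pool.Agent.MP_6c6e33_an

theorem coe_translation (a : ℝ) (f : L2) :
    translation a f =ᵐ[volume] fun x : ℝ => f (x - a) :=
  MemLp.coeFn_toLp _

theorem coe_modulation (b : ℝ) (f : L2) :
    modulation b f =ᵐ[volume] fun x : ℝ => Complex.exp (2 * Real.pi * Complex.I * b * x) * f x :=
  MemLp.coeFn_toLp _

theorem ae_shift {p : ℝ → Prop} (h : ∀ᵐ x : ℝ, p x) (a : ℝ) : ∀ᵐ x : ℝ, p (x - a) :=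
  (measurePreserving_sub_right volume a).quasiMeasurePreserving.ae h

theorem norm_exp_two_pi (t : ℝ) : ‖Complex.exp (2 * Real.pi * Complex.I * t)‖ = 1 := by
  have h : (2 * Real.pi * Complex.I * t : ℂ) = ((2 * Real.pi * t : ℝ) : ℂ) * Complex.I := by
    push_cast; ring
  rw [h, Complex.norm_exp_ofReal_mul_I]

theorem coe_shift (s t : ℝ) (f : L2) :
    modulation s (translation t f) =ᵐ[volume]
      fun x : ℝ => Complex.exp (2 * Real.pi * Complex.I * s * x) * f (x - t) := by
  filter_upwards [coe_modulation s (translation t f), coe_translation t f] with x h1 h2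
  rw [h1, h2]

/-- The time-frequency shift as a linear map. -/
def shiftLin (s t : ℝ) : L2 →ₗ[ℂ] L2 where
  toFun f := modulation s (translation t f)
  map_add' f g := by
    apply Lp.ext
    filter_upwards [coe_shift s t (f + g), coe_shift s t f, coe_shift s t g,
      ae_shift (Lp.coeFn_add f g) t,
      Lp.coeFn_add (modulation s (translation t f)) (modulation s (translation t g))]
      with x h1 h2 h3 h4 h5
    rw [h1, h5, Pi.add_apply, h2, h3, h4, Pi.add_apply, mul_add]
  map_smul' c f := by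
    apply Lp.ext
    filter_upwards [coe_shift s t (c • f), coe_shift s t f,
      ae_shift (Lp.coeFn_smul c f) t,
      Lp.coeFn_smul c (modulation s (translation t f))]
      with x h1 h2 h4 h5
    rw [RingHom.id_apply, h1, h5, Pi.smul_apply, h2, h4, Pi.smul_apply, smul_eq_mul, smul_eq_mul]
    ring

theorem norm_shiftLin (s t : ℝ) (f : L2) : ‖shiftLin s t f‖ = ‖f‖ := by
  have h1 : ‖translation t f‖ = ‖f‖ := by
    rw [← Lp.norm_compMeasurePreserving f (measurePreserving_sub_right volume t)]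
    congr 1
    apply Lp.ext
    filter_upwards [coe_translation t f,
      Lp.coeFn_compMeasurePreserving f (measurePreserving_sub_right volume t)] with x h1 h2
    rw [h1, h2]; rfl
  rw [← h1]
  change ‖modulation s (translation t f)‖ = _
  rw [Lp.norm_def, Lp.norm_def]
  congr 1
  apply eLpNorm_congr_norm_ae
  filter_upwards [coe_modulation s (translation t f)] with x h
  rw [h, norm_mul, mul_assoc, ← Complex.ofReal_mul, norm_exp_two_pi, one_mul]

/-- The time-frequency shift as a linear isometry. -/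
def shiftIso (s t : ℝ) : L2 →ₗᵢ[ℂ] L2 := ⟨shiftLin s t, norm_shiftLin s t⟩

theorem shift_gabor (a b : ℝ) (g : L2) (ν l : ℤ × ℤ) :
    shiftIso (ν.1 * b) (ν.2 * a) (gabor a b g l) =
      Complex.exp (2 * Real.pi * Complex.I * ((-(l.1 * b * (ν.2 * a)) : ℝ) : ℂ)) •
        gabor a b g (l + ν) := by
  apply Lp.ext
  filter_upwards [coe_shift (ν.1 * b) (ν.2 * a) (gabor a b g l),
    ae_shift (coe_shift (l.1 * b) (l.2 * a) g) (ν.2 * a),
    coe_shift ((l + ν).1 * b) ((l + ν).2 * a) g,
    Lp.coeFn_smul (Complex.exp (2 * Real.pi * Complex.I * ((-(l.1 * b * (ν.2 * a)) : ℝ) : ℂ)))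
      (gabor a b g (l + ν))] with x h1 h2 h3 h4
  change (modulation (ν.1 * b) (translation (ν.2 * a) (gabor a b g l))) x = _
  rw [h1, h4, Pi.smul_apply, smul_eq_mul]
  unfold gabor
  rw [h2, h3, ← mul_assoc, ← mul_assoc, ← Complex.exp_add, ← Complex.exp_add]
  congr 2
  · simp only [Prod.fst_add]; push_cast; ring
  · simp only [Prod.snd_add]; push_cast; ring

instance : Nontrivial L2 := by
  refine ⟨⟨indicatorConstLp 2 (measurableSet_Icc (a := (0 : ℝ)) (b := 1)) (by simp) (1 : ℂ), 0, ?_⟩⟩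
  intro h
  have := congrArg norm h
  rw [norm_indicatorConstLp (by simp) (by simp)] at this
  simp at this

theorem gabor_main (a b : ℝ) (g : L2) (hframe : IsFrame (gabor a b g))
    (hover : ¬ IsRieszBasis (gabor a b g)) :
    (∀ σ : ℕ ≃ ℤ × ℤ, ¬ HasBoundedRepresentation (gabor a b g ∘ σ)) ∧
    (∀ σ : ℤ ≃ ℤ × ℤ, ¬ HasBoundedRepresentation (gabor a b g ∘ σ)) := by
  have h := abstract_main (gabor a b g) hframe
    (fun ν => (shiftIso (ν.1 * b) (ν.2 * a)).toContinuousLinearMap)
    (fun ν => (shiftIso (ν.1 * b) (ν.2 * a)).injective)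
    (fun ν l => Complex.exp (2 * Real.pi * Complex.I * ((-(l.1 * b * (ν.2 * a)) : ℝ) : ℂ)))
    (fun ν l => norm_exp_two_pi _) (fun ν l => shift_gabor a b g ν l)
  exact ⟨fun σ hσ => hover (h.1 σ hσ), fun σ hσ => hover (h.2 σ hσ)⟩

end Pool.Agent.MP_6c6e33_an
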