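import Pool.Agent.MP_6c6e33_an.Defs

/-!
Every frame is the image of a Parseval frame under a bounded invertible operator.
-/

open scoped InnerProductSpace ENNReal

noncomputable section

namespace Pool.Agent.MP_6c6e33_an

variable {ι H : Type} [NormedAddCommGroup H] [InnerProductSpace ℂ H]

/-- Parseval frames. -/
def IsParseval (u : ι → H) : Prop :=
  ∀ x : H, HasSum (fun k => ‖⟪x, u k⟫_ℂ‖ ^ 2) (‖x‖ ^ 2)

theorem exists_analysis (f : ι → H) (B : ℝ) (hB : 0 < B)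
    (hs : ∀ x : H, Summable (fun k => ‖⟪x, f k⟫_ℂ‖ ^ 2))
    (hb : ∀ x : H, ∑' k, ‖⟪x, f k⟫_ℂ‖ ^ 2 ≤ B * ‖x‖ ^ 2) :
    ∃ C : H →L[ℂ] lp (fun _ : ι => ℂ) 2,
      ∀ x, HasSum (fun k => ‖⟪x, f k⟫_ℂ‖ ^ 2) (‖C x‖ ^ 2) := by
  have h2 : (0 : ℝ) < (2 : ℝ≥0∞).toReal := by norm_num
  have hmem : ∀ x : H, Memℓp (fun k : ι => ⟪f k, x⟫_ℂ) 2 := by
    intro x
    apply memℓp_gen
    have := hs x
    simp only [ENNReal.toReal_ofNat, Real.rpow_ofNat]
    simpa only [norm_inner_symm x] using this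
  let C0 : H →ₗ[ℂ] lp (fun _ : ι => ℂ) 2 :=
    { toFun := fun x => ⟨fun k => ⟪f k, x⟫_ℂ, hmem x⟩
      map_add' := by
        intro x y
        ext k
        simp
      map_smul' := by
        intro c x
        ext k
        simp }
  have hC0 : ∀ x, HasSum (fun k => ‖⟪x, f k⟫_ℂ‖ ^ 2) (‖C0 x‖ ^ 2) := by
    intro x
    have := lp.hasSum_norm h2 (C0 x)
    simp only [ENNReal.toReal_ofNat, Real.rpow_ofNat] at this
    simpa only [norm_inner_symm x] using! this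
  refine ⟨C0.mkContinuous (Real.sqrt B) (fun x => ?_), fun x => hC0 x⟩
  have h1 : ‖C0 x‖ ^ 2 ≤ (Real.sqrt B * ‖x‖) ^ 2 := by
    rw [mul_pow, Real.sq_sqrt hB.le, ← (hC0 x).tsum_eq]
    exact hb x
  exact (pow_le_pow_iff_left₀ (norm_nonneg _) (by positivity) two_ne_zero).1 h1

theorem exists_parseval [CompleteSpace H] (f : ι → H) (hf : IsFrame f) :
    ∃ R : H ≃L[ℂ] H, IsParseval (fun k => R.symm (f k)) := by
  obtain ⟨A, B, hA, hB, hAB⟩ := hf
  obtain ⟨C, hC⟩ := exists_analysis f B hB (fun x => (hAB x).1) (fun x => (hAB x).2.2)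
  set S : H →L[ℂ] H := (ContinuousLinearMap.adjoint C) ∘L C with hS
  have hSx : ∀ x, ⟪S x, x⟫_ℂ = ((‖C x‖ ^ 2 : ℝ) : ℂ) := by
    intro x
    rw [hS, ContinuousLinearMap.comp_apply, ContinuousLinearMap.adjoint_inner_left,
      inner_self_eq_norm_sq_to_K]
    norm_cast
  have hSpos : 0 ≤ S := by
    rw [ContinuousLinearMap.nonneg_iff_isPositive, ContinuousLinearMap.isPositive_iff_complex]
    intro x
    rw [hSx]
    simp only [RCLike.re_to_complex, Complex.ofReal_re, true_and]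
    positivity
  have hSunit : IsUnit S := by
    refine ContinuousLinearMap.isUnit_of_forall_le_norm_inner_map S (c := ⟨A, hA.le⟩) hA ?_
    intro x
    rw [hSx, Complex.norm_real, Real.norm_of_nonneg (by positivity), ← (hC x).tsum_eq, mul_comm]
    exact (hAB x).2.1
  have hRunit : IsUnit (CFC.sqrt S) := (CFC.isUnit_sqrt_iff S hSpos).2 hSunit
  have hRR : CFC.sqrt S * CFC.sqrt S = S := CFC.sqrt_mul_sqrt_self S hSpos
  have hRsa : IsSelfAdjoint (CFC.sqrt S) := (CFC.sqrt_nonneg S).isSelfAdjoint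
  obtain ⟨r, hr⟩ := hRunit
  let R : H ≃L[ℂ] H := ContinuousLinearEquiv.unitsEquiv ℂ H r
  have hR : ∀ x, R x = CFC.sqrt S x := by
    intro x
    rw [← hr]; rfl
  have hsym : ∀ x y, ⟪R x, y⟫_ℂ = ⟪x, R y⟫_ℂ := by
    intro x y
    rw [hR, hR]
    exact hRsa.isSymmetric x y
  refine ⟨R, fun x => ?_⟩
  obtain ⟨y, rfl⟩ := R.surjective x
  have e1 : ∀ k, ⟪R y, R.symm (f k)⟫_ℂ = ⟪y, f k⟫_ℂ := by
    intro k
    rw [hsym, R.apply_symm_apply]
  simp only [e1]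
  have e2 : ‖R y‖ ^ 2 = ‖C y‖ ^ 2 := by
    have h1 : ⟪R y, R y⟫_ℂ = ⟪S y, y⟫_ℂ := by
      rw [← hsym, hR, hR, ← mul_apply_eq_comp, hRR]
    rw [hSx] at h1
    have h2 := congrArg Complex.re h1
    rw [Complex.ofReal_re] at h2
    rw [← h2, ← inner_self_eq_norm_sq (𝕜 := ℂ)]
    rfl
  rw [e2]
  exact hC y

end Pool.Agent.MP_6c6e33_an
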